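import Pool.Agent.W5h30.BJ.Main
import Pool.Agent.W5h30.MU.Forms

/-!
# The Diophantine condition (helper30)
-/

set_option autoImplicit false

namespace Pool.Agent.W5h30.BJ

open Finset Filter
open Pool.Agent.Y957.VK (dz)
open Pool.Agent.W5h30.MU (sz LB forms one_le_sz)

/-- algebraic numbers -/
lemma alg_type {n : ℕ} (x : Fin n → ℝ) (hx : ∀ j, IsAlgebraic ℚ (x j))
    (hind : ∀ (k : Fin n → ℤ) (p : ℤ), ∑ j, (k j : ℝ) * x j = p → k = 0) :
    ∃ (τ : ℕ) (C0 : ℝ), 1 ≤ C0 ∧ ∀ (H : ℝ) (k : Fin n → ℤ), k ≠ 0 → (∀ j, |(k j : ℝ)| ≤ H) →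
      1 / (C0 * H ^ τ) ≤ dz (∑ j, (k j : ℝ) * x j) := by
  classical
  have hforms := forms 2 le_rfl 1 1 one_pos n (Fin.snoc x (-1)) (fun j => by
    refine Fin.lastCases ?_ (fun i => ?_) j
    · rw [Fin.snoc_last]
      exact isAlgebraic_one.neg
    · rw [Fin.snoc_castSucc]
      exact hx i)
  obtain ⟨m0, hm0⟩ := eventually_atTop.1 hforms
  obtain ⟨S, hS⟩ : ∃ S : ℝ, S = ∑ i, |x i| := ⟨_, rfl⟩
  have hS0 : 0 ≤ S := by rw [hS]; exact sum_nonneg fun _ _ => abs_nonneg _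
  refine ⟨n + 1, 2 ^ (m0 + 1) + 2 * (S + 1), by
    have : (1 : ℝ) ≤ 2 ^ (m0 + 1) := one_le_pow₀ (by norm_num)
    linarith, fun H k hk hkH => ?_⟩
  obtain ⟨i0, hi0⟩ := Function.ne_iff.1 hk
  have hH1 : 1 ≤ H := by
    refine le_trans ?_ (hkH i0)
    have : (1 : ℤ) ≤ |k i0| := Int.one_le_abs hi0
    exact_mod_cast this
  have hH0 : 0 < H := by linarith
  -- the exponent
  obtain ⟨m, hm1, hm2, hm3⟩ : ∃ m : ℕ, m0 ≤ m ∧ H * (S + 1) ≤ 2 ^ m ∧
      (2 : ℝ) ^ m ≤ (2 ^ (m0 + 1) + 2 * (S + 1)) * H := by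
    obtain ⟨m', hm'⟩ := pow_unbounded_of_one_lt (H * (S + 1)) (by norm_num : (1 : ℝ) < 2)
    have hex : ∃ m : ℕ, m0 ≤ m ∧ H * (S + 1) ≤ (2 : ℝ) ^ m :=
      ⟨max m0 m', le_max_left _ _, hm'.le.trans (pow_le_pow_right₀ (by norm_num) (le_max_right _ _))⟩
    refine ⟨Nat.find hex, (Nat.find_spec hex).1, (Nat.find_spec hex).2, ?_⟩
    rcases Nat.eq_or_lt_of_le (Nat.find_spec hex).1 with h1 | h1
    · rw [← h1]
      calc (2 : ℝ) ^ m0 ≤ 2 ^ (m0 + 1) := pow_le_pow_right₀ (by norm_num) (by omega)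
        _ ≤ (2 ^ (m0 + 1) + 2 * (S + 1)) * 1 := by linarith
        _ ≤ _ := by gcongr
    · have h2 := Nat.find_min hex (m := Nat.find hex - 1) (by omega)
      push Not at h2
      have h3 := h2 (by omega)
      have h4 : (2 : ℝ) ^ (Nat.find hex) = 2 * 2 ^ (Nat.find hex - 1) := by
        rw [← pow_succ']
        congr 1
        omega
      rw [h4]
      have : (0 : ℝ) ≤ 2 ^ (m0 + 1) * H := by positivity
      nlinarith
  obtain ⟨p, hp⟩ : ∃ p : ℤ, p = round (∑ j, (k j : ℝ) * x j) := ⟨_, rfl⟩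
  have hne : ∑ j, (k j : ℝ) * x j - p ≠ 0 := by
    intro h0
    exact hk (hind k p (by linarith))
  have hpH : |(p : ℝ)| ≤ H * (S + 1) := by
    have h1 : |∑ j, (k j : ℝ) * x j - p| ≤ 1 / 2 := by rw [hp]; exact abs_sub_round _
    have h2 : |∑ j, (k j : ℝ) * x j| ≤ H * S := by
      refine (abs_sum_le_sum_abs _ _).trans ?_
      rw [hS, mul_sum]
      refine sum_le_sum fun j _ => ?_
      rw [abs_mul]
      exact mul_le_mul_of_nonneg_right (hkH j) (abs_nonneg _)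
    have h3 := abs_le.1 h1
    have h4 := abs_le.1 h2
    rw [abs_le]
    constructor <;> nlinarith [h3.1, h3.2, h4.1, h4.2]
  have hsum : ∀ f : Fin (n + 1) → ℝ, ∑ j : Fin (n + 1), (Fin.snoc x (-1) : Fin (n + 1) → ℝ) j * f j =
      ∑ j : Fin n, x j * f j.castSucc - f (Fin.last n) := by
    intro f
    rw [Fin.sum_univ_castSucc, Fin.snoc_last]
    simp only [Fin.snoc_castSucc]
    ring
  have key := hm0 m hm1 (Fin.snoc k p) (fun _ => 1) (fun _ => one_dvd _) (fun j => by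
    rw [one_mul]
    push_cast
    refine Fin.lastCases ?_ (fun i => ?_) j
    · rw [Fin.snoc_last]
      exact hpH.trans hm2
    · rw [Fin.snoc_castSucc]
      refine (hkH i).trans (le_trans ?_ hm2)
      nlinarith) (by
    rw [hsum]
    simp only [Fin.snoc_castSucc, Fin.snoc_last, Nat.cast_one, mul_one]
    intro h0
    apply hne
    rw [← h0]
    congr 1
    exact sum_congr rfl fun j _ => mul_comm _ _)
  rw [hsum] at key
  simp only [Fin.snoc_castSucc, Fin.snoc_last, Nat.cast_one, mul_one] at key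
  have e1 : ∑ j, x j * (k j : ℝ) - p = ∑ j, (k j : ℝ) * x j - p := by
    congr 1
    exact sum_congr rfl fun j _ => mul_comm _ _
  rw [e1] at key
  unfold dz
  rw [← hp]
  refine le_trans ?_ key
  have h5 : ∏ j : Fin n, sz (k j) ≤ H ^ n := by
    calc ∏ j : Fin n, sz (k j) ≤ ∏ _j : Fin n, H :=
          prod_le_prod (fun j _ => zero_le_one.trans (one_le_sz _)) fun j _ => max_le hH1 (hkH j)
      _ = H ^ n := by rw [prod_const, card_univ, Fintype.card_fin]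
  have h6 : 0 < ∏ j : Fin n, sz (k j) := prod_pos fun j _ => lt_of_lt_of_le one_pos (one_le_sz _)
  have h7 : ((2 : ℕ) : ℝ) ^ (-(1 * (m : ℝ))) = ((2 : ℝ) ^ m)⁻¹ := by
    rw [one_mul, Real.rpow_neg (by norm_num), Real.rpow_natCast]
    norm_num
  rw [h7, ← one_div, div_div]
  apply one_div_le_one_div_of_le (by positivity)
  calc (2 : ℝ) ^ m * ∏ j : Fin n, sz (k j) ≤ ((2 ^ (m0 + 1) + 2 * (S + 1)) * H) * H ^ n := by gcongr
    _ = _ := by ring

/-- the general condition -/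
lemma gen_type {n : ℕ} (x : Fin n → ℝ) (h : ∃ (τ : ℕ) (c : ℝ), 0 < c ∧ ∀ k : Fin n → ℤ, k ≠ 0 → ∀ p : ℤ,
      c ≤ (∑ j, |(k j : ℝ)|) ^ τ * |∑ j, (k j : ℝ) * x j - p|) :
    ∃ (τ : ℕ) (C0 : ℝ), 1 ≤ C0 ∧ ∀ (H : ℝ) (k : Fin n → ℤ), k ≠ 0 → (∀ j, |(k j : ℝ)| ≤ H) →
      1 / (C0 * H ^ τ) ≤ dz (∑ j, (k j : ℝ) * x j) := by
  classical
  obtain ⟨τ, c, hc, h⟩ := h
  refine ⟨τ, max 1 ((n : ℝ) ^ τ / c), le_max_left _ _, fun H k hk hkH => ?_⟩
  obtain ⟨i0, hi0⟩ := Function.ne_iff.1 hk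
  have hH1 : 1 ≤ H := by
    refine le_trans ?_ (hkH i0)
    have : (1 : ℤ) ≤ |k i0| := Int.one_le_abs hi0
    exact_mod_cast this
  have hH0 : 0 < H := by linarith
  have h1 := h k hk (round (∑ j, (k j : ℝ) * x j))
  have h2 : ∑ j, |(k j : ℝ)| ≤ n * H := by
    calc ∑ j, |(k j : ℝ)| ≤ ∑ _j : Fin n, H := sum_le_sum fun j _ => hkH j
      _ = n * H := by rw [sum_const, card_univ, Fintype.card_fin, nsmul_eq_mul]
  have h3 : 0 ≤ ∑ j, |(k j : ℝ)| := sum_nonneg fun _ _ => abs_nonneg _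
  have h0 : 0 ≤ dz (∑ j, (k j : ℝ) * x j) := abs_nonneg _
  have h4 : c ≤ (n * H) ^ τ * dz (∑ j, (k j : ℝ) * x j) := by
    refine h1.trans ?_
    unfold dz
    gcongr
  have hm0 : 0 < max 1 ((n : ℝ) ^ τ / c) := lt_of_lt_of_le one_pos (le_max_left _ _)
  rw [div_le_iff₀ (by positivity)]
  calc (1 : ℝ) = (1 / c) * c := by field_simp
    _ ≤ (1 / c) * ((n * H) ^ τ * dz (∑ j, (k j : ℝ) * x j)) := by gcongr
    _ = ((n : ℝ) ^ τ / c) * (H ^ τ * dz (∑ j, (k j : ℝ) * x j)) := by rw [mul_pow]; ring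
    _ ≤ max 1 ((n : ℝ) ^ τ / c) * (H ^ τ * dz (∑ j, (k j : ℝ) * x j)) := by
        gcongr
        exact le_max_right _ _
    _ = _ := by ring

end Pool.Agent.W5h30.BJ
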