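import Pool.Agent.W5h30.BS.Poly

/-!
# Exponential sums over all bases, general coefficients (helper30)
-/

set_option autoImplicit false

namespace Pool.Agent.W5h30.BJ

open Finset Polynomial
open Pool.Agent.Y957.VK (WJ TT dz)
open Pool.Agent.Y933.KD (e norm_e e_add)
open Pool.Agent.W5h30.BS (tt_type poly_bound)

/-- a polynomial without constant term -/
noncomputable def GQ {N : ℕ} (θ : Fin N → ℝ) : ℝ[X] :=
  ∑ i : Fin N, C (θ i) * X ^ ((i : ℕ) + 1)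

lemma GQ_eval {N : ℕ} (θ : Fin N → ℝ) (q : ℝ) :
    (GQ θ).eval q = ∑ i : Fin N, θ i * q ^ ((i : ℕ) + 1) := by
  unfold GQ
  rw [eval_finsetSum]
  refine sum_congr rfl fun i _ => ?_
  rw [eval_mul, eval_C, eval_pow, eval_X]

lemma GQ_coeff {N : ℕ} (θ : Fin N → ℝ) (i : Fin N) : (GQ θ).coeff ((i : ℕ) + 1) = θ i := by
  unfold GQ
  rw [finsetSum_coeff, Finset.sum_eq_single i]
  · rw [coeff_C_mul, coeff_X_pow, if_pos rfl, mul_one]
  · intro j _ hj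
    rw [coeff_C_mul, coeff_X_pow, if_neg, mul_zero]
    intro h'
    apply hj
    ext
    omega
  · intro h'
    exact absurd (Finset.mem_univ i) h'

lemma GQ_coeff_big {N : ℕ} (θ : Fin N → ℝ) (i0 : Fin N) (hi0 : ∀ i, i0 < i → θ i = 0)
    (k : ℕ) (hk : (i0 : ℕ) + 1 < k) : (GQ θ).coeff k = 0 := by
  unfold GQ
  rw [finsetSum_coeff]
  refine Finset.sum_eq_zero fun i _ => ?_
  rw [coeff_C_mul, coeff_X_pow]
  split_ifs with h1
  · have : i0 < i := by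
      rw [Fin.lt_def]
      omega
    rw [hi0 i this]
    simp
  · rw [mul_zero]

/-- the exponential sums -/
theorem weyl : ∃ C : ℕ, ∀ (τ N : ℕ) (θ : Fin N → ℝ) (i0 : Fin N) (C0 : ℝ) (R U : ℕ), 1 ≤ C0 →
    (∀ i, i0 < i → θ i = 0) →
    (∀ q : ℤ, q ≠ 0 → 1 / (C0 * |(q : ℝ)| ^ τ) ≤ dz (θ i0 * q)) → 1 ≤ U →
    ‖∑ q ∈ Finset.Ioc 0 R, e (∑ i : Fin N, θ i * (q : ℝ) ^ ((i : ℕ) + 1))‖ ≤
      R * (Real.exp (C * ((N : ℝ) + 4 * τ + 7) ^ C) * C0 *
        (U : ℝ) ^ (-(1 / (8 * ((N : ℝ) + 4 * τ + 7) ^ 6)) : ℝ)) +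
      2 * ((U ^ (τ + 1) : ℕ) : ℝ) ^ 2 := by
  classical
  obtain ⟨C, hC⟩ := tt_type
  refine ⟨C, ?_⟩
  intro τ N θ i0 C0 R U hC0 hmax hx hU
  have hx0 : θ i0 ≠ 0 := by
    intro h0
    have h1 := hx 1 one_ne_zero
    have h2 : dz (θ i0 * ((1 : ℤ) : ℝ)) = 0 := by
      rw [h0]
      unfold dz
      simp
    rw [h2] at h1
    have : 0 < 1 / (C0 * |((1 : ℤ) : ℝ)| ^ τ) := by
      have : (0 : ℝ) < |((1 : ℤ) : ℝ)| := by simp
      positivity
    linarith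
  have hdeg : (GQ θ).natDegree = (i0 : ℕ) + 1 := by
    refine natDegree_eq_of_le_of_coeff_ne_zero ?_ ?_
    · exact natDegree_le_iff_coeff_eq_zero.2 fun k hk => GQ_coeff_big θ i0 hmax k hk
    · rw [GQ_coeff]
      exact hx0
  have hi0N := i0.isLt
  have key := poly_bound (GQ θ) (N + 2) (U ^ (τ + 1)) R (by omega) (Nat.one_le_pow _ _ hU)
    (Real.exp (C * ((N : ℝ) + 4 * τ + 7) ^ C) * C0 *
        (U : ℝ) ^ (-(1 / (8 * ((N : ℝ) + 4 * τ + 7) ^ 6)) : ℝ)) (by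
    intro n
    have h1 := hC τ (θ i0) C0 hC0 hx (N + 2) ((i0 : ℕ) + 1) U 1 1
      (fun j => (taylor (n : ℝ) (GQ θ)).coeff j) (by omega)
      (by rw [Finset.mem_Icc]; omega) hU one_ne_zero (by simp) (by
        have h2 := coeff_taylor_natDegree (n : ℝ) (GQ θ)
        rw [hdeg, leadingCoeff, hdeg, GQ_coeff] at h2
        rw [h2]
        push_cast
        ring)
    have e1 : (((N + 2 : ℕ) : ℝ) + 4 * τ + 5) = (N : ℝ) + 4 * τ + 7 := by push_cast; ring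
    rw [e1, one_pow, mul_one] at h1
    exact h1)
  refine le_trans (le_of_eq ?_) key
  congr 1
  refine sum_congr rfl fun q _ => ?_
  rw [GQ_eval]

end Pool.Agent.W5h30.BJ
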